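import Pool.Agent.Helper15.T5.Stmts

set_option autoImplicit false

/-!
MP_2f9829_co: module TL (the tilted laws are good).
-/

open Finset MeasureTheory Filter Topology

namespace Pool.Agent.Helper15.T5

open Pool.Agent.Helper15.T4 Pool.Agent.Helper46.T5

/-- The total mass is positive. -/
theorem zsum_pos91 (zm : ST_ZM) (pq : ST_PQ) (sofb : ST_SOFB) (K N : ℕ) :
    0 < ∑ M ∈ PM (univ : Finset (HE (2 * N))), ((Zc M : ℤ) : ℝ) ^ (2 * K) := by
  rw [zm K (2 * N)]
  have h1 := (sofb _ _ _ (pq K).1).1 N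
  have h2 : (0 : ℝ) < (2 * Real.pi) ^ (-(Fintype.card (Fin K × Fin 2 → Fin 3) : ℝ) / 2) :=
    Real.rpow_pos_of_pos (by have := Real.pi_pos; positivity) _
  exact mul_pos h2 h1

/-- TL. -/
theorem st_TL (tlc : ST_TLC) (tlb : ST_TLB) (zm : ST_ZM) (pq : ST_PQ) (sofb : ST_SOFB) : ST_TL := by
  intro K
  have hnn : ∀ (n : ℕ) (M : Finset (Sym2 (HE n))), 0 ≤ ((Zc M : ℤ) : ℝ) ^ (2 * K) := by
    intro n M
    rw [pow_mul]
    positivity
  refine ⟨?_, ?_, ?_, ?_⟩
  · intro N M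
    unfold WK
    exact div_nonneg (hnn _ _) (sum_nonneg fun M' _ => hnn _ _)
  · refine Eventually.of_forall fun N => ?_
    unfold WK
    rw [← sum_div, div_self (zsum_pos91 zm pq sofb K N).ne']
  · intro I _ _ κ
    exact tlc K I κ
  · intro f
    exact tlb K f

end Pool.Agent.Helper15.T5
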