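import Pool.Agent.Helper46.T5.Stmts

set_option autoImplicit false

/-!
MP_2f9829_co: module TOT (all even moments, assembly of the Laplace method).
-/

open Finset MeasureTheory Filter Topology

namespace Pool.Agent.Helper46.T5

open Pool.Agent.Helper15.T4

namespace Tot91

theorem rp (x : ℝ) (hx : 0 < x) (m K : ℕ) :
    x ^ ((m : ℝ) * (K : ℝ) / 2) = (Real.sqrt x ^ m) ^ K := by
  rw [Real.sqrt_eq_rpow, ← Real.rpow_mul_natCast hx.le, ← Real.rpow_mul_natCast hx.le]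
  congr 1
  ring

theorem qq_sq : qq ^ 2 = 4 / 3 := by
  unfold qq
  rw [div_pow, Real.sq_sqrt (by norm_num)]
  norm_num

theorem df_fac (K : ℕ) : df K * (2 ^ K * (K.factorial : ℝ)) = ((2 * K).factorial : ℝ) := by
  induction K with
  | zero => simp [df]
  | succ K ih =>
    have h1 : df (K + 1) = df K * (2 * (K : ℝ) + 1) := by
      unfold df
      rw [prod_range_succ]
    have h2 : (2 * (K + 1)).factorial = (2 * K + 2) * ((2 * K + 1) * (2 * K).factorial) := by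
      rw [show 2 * (K + 1) = 2 * K + 1 + 1 from by ring, Nat.factorial_succ, Nat.factorial_succ]
    rw [h1, h2, Nat.factorial_succ, pow_succ]
    push_cast
    rw [← ih]
    ring

theorem NF1_pos (N : ℕ) (hN : 0 < N) : 0 < NF 1 N := by
  unfold NF
  have : (0 : ℝ) < N := by exact_mod_cast hN
  positivity

/-- The constant in front of the Laplace integral. -/
noncomputable def cc (K : ℕ) : ℝ :=
  (3 / (2 * Real.pi)) ^ ((9 : ℝ) ^ K / 2) * (2 * ((2 * K).factorial : ℝ) /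
    Real.sqrt (2 * Real.pi) ^ K)

theorem real_id (K N : ℕ) (hN : 0 < N) (I : ℝ) :
    (3 * (N : ℝ) / Real.pi) ^ ((9 : ℝ) ^ K / 2) * NF 1 N * (qq ^ (2 * K)) ^ N *
      (2 * ((2 * K).factorial : ℝ) * I) / (NF 1 N * sN N ^ K) =
    cc K * ((2 * (N : ℝ)) ^ (((9 : ℝ) ^ K - 3 * K) / 2) * I) := by
  have hNr : (0 : ℝ) < N := by exact_mod_cast hN
  have hx : (0 : ℝ) < 2 * (N : ℝ) := by positivity
  have hpi := Real.pi_pos
  have h1 : (3 * (N : ℝ) / Real.pi) ^ ((9 : ℝ) ^ K / 2) =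
      (3 / (2 * Real.pi)) ^ ((9 : ℝ) ^ K / 2) * (2 * (N : ℝ)) ^ ((9 : ℝ) ^ K / 2) := by
    rw [← Real.mul_rpow (by positivity) hx.le]
    congr 1
    field_simp
  have h2 : (2 * (N : ℝ)) ^ (((9 : ℝ) ^ K - 3 * K) / 2) =
      (2 * (N : ℝ)) ^ ((9 : ℝ) ^ K / 2) / ((2 * (N : ℝ)) ^ ((3 : ℝ) / 2)) ^ K := by
    rw [← Real.rpow_mul_natCast hx.le, ← Real.rpow_sub hx]
    congr 1
    ring
  have h3 : (qq ^ (2 * K)) ^ N = ((4 / 3 : ℝ) ^ N) ^ K := by
    rw [pow_mul, qq_sq, ← pow_mul, ← pow_mul, mul_comm]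
  have h4 := NF1_pos N hN
  have h5 : (0 : ℝ) < (2 * (N : ℝ)) ^ ((3 : ℝ) / 2) := Real.rpow_pos_of_pos hx _
  have h6 : (0 : ℝ) < Real.sqrt (2 * Real.pi) := Real.sqrt_pos.2 (by positivity)
  have h7 : (0 : ℝ) < (4 / 3 : ℝ) ^ N := by positivity
  rw [h1, h2, h3]
  unfold sN cc
  rw [mul_pow, mul_pow]
  generalize (2 * (N : ℝ)) ^ ((3 : ℝ) / 2) = a at h5
  generalize Real.sqrt (2 * Real.pi) = b at h6
  generalize (4 / 3 : ℝ) ^ N = c at h7
  generalize NF 1 N = d at h4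
  generalize (2 * (N : ℝ)) ^ ((9 : ℝ) ^ K / 2) = e
  generalize (3 / (2 * Real.pi)) ^ ((9 : ℝ) ^ K / 2) = f
  have ha : a ^ K ≠ 0 := pow_ne_zero _ h5.ne'
  have hb : b ^ K ≠ 0 := pow_ne_zero _ h6.ne'
  have hc : c ^ K ≠ 0 := pow_ne_zero _ h7.ne'
  field_simp

theorem lim_id (K : ℕ) (P E : ℝ)
    (h : (3 : ℝ) ^ ((9 : ℝ) ^ K / 2) * P =
      (Real.sqrt 2)⁻¹ * (3 : ℝ) ^ (3 * (K : ℝ) / 2) * (2 : ℝ) ^ (-(5 * (K : ℝ) / 2)) * E) :
    cc K * ((CK K)⁻¹ * ((2 * Real.pi) ^ ((9 : ℝ) ^ K / 2) * P)) = Real.sqrt 2 * (df K * E) := by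
  have hpi := Real.pi_pos
  have h1 : (3 / (2 * Real.pi)) ^ ((9 : ℝ) ^ K / 2) * (2 * Real.pi) ^ ((9 : ℝ) ^ K / 2) =
      (3 : ℝ) ^ ((9 : ℝ) ^ K / 2) := by
    rw [← Real.mul_rpow (by positivity) (by positivity)]
    congr 1
    field_simp
  have h3 : (3 : ℝ) ^ (3 * (K : ℝ) / 2) = (Real.sqrt 3 ^ 3) ^ K := by
    have := rp 3 (by norm_num) 3 K
    simpa using this
  have h2 : (2 : ℝ) ^ (-(5 * (K : ℝ) / 2)) = ((Real.sqrt 2 ^ 5) ^ K)⁻¹ := by
    rw [Real.rpow_neg (by norm_num)]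
    have := rp 2 (by norm_num) 5 K
    rw [show ((5 : ℕ) : ℝ) = 5 from by norm_num] at this
    rw [this]
  have h4 : (3 * Real.pi / 4) ^ ((3 : ℝ) / 2) = (Real.sqrt 3 * Real.sqrt Real.pi / 2) ^ 3 := by
    have h5 : Real.sqrt (3 * Real.pi / 4) = Real.sqrt 3 * Real.sqrt Real.pi / 2 := by
      rw [Real.sqrt_div (by positivity), Real.sqrt_mul (by norm_num),
        show (4 : ℝ) = 2 ^ 2 from by norm_num, Real.sqrt_sq (by norm_num)]
    have := rp (3 * Real.pi / 4) (by positivity) 3 1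
    rw [h5] at this
    simpa using this
  have h6 : Real.sqrt (2 * Real.pi) = Real.sqrt 2 * Real.sqrt Real.pi :=
    Real.sqrt_mul (by norm_num) _
  have h7 : Real.pi = Real.sqrt Real.pi ^ 2 := (Real.sq_sqrt hpi.le).symm
  have h8 := df_fac K
  have hs2 : (0 : ℝ) < Real.sqrt 2 := by positivity
  have hs3 : (0 : ℝ) < Real.sqrt 3 := by positivity
  have hsp : (0 : ℝ) < Real.sqrt Real.pi := Real.sqrt_pos.2 hpi
  have hq2 : Real.sqrt 2 ^ 2 = 2 := Real.sq_sqrt (by norm_num)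
  have hK : (0 : ℝ) < (K.factorial : ℝ) := by exact_mod_cast Nat.factorial_pos K
  calc cc K * ((CK K)⁻¹ * ((2 * Real.pi) ^ ((9 : ℝ) ^ K / 2) * P))
      = ((3 / (2 * Real.pi)) ^ ((9 : ℝ) ^ K / 2) * (2 * Real.pi) ^ ((9 : ℝ) ^ K / 2)) * P *
          ((2 * ((2 * K).factorial : ℝ) / Real.sqrt (2 * Real.pi) ^ K) * (CK K)⁻¹) := by
        unfold cc
        ring
    _ = ((Real.sqrt 2)⁻¹ * (Real.sqrt 3 ^ 3) ^ K * ((Real.sqrt 2 ^ 5) ^ K)⁻¹ * E) *
          ((2 * (df K * (2 ^ K * (K.factorial : ℝ))) / (Real.sqrt 2 * Real.sqrt Real.pi) ^ K) *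
            (2 ^ K * (K.factorial : ℝ) * (((Real.sqrt Real.pi ^ 2) ^ 2)⁻¹ *
              (Real.sqrt 3 * Real.sqrt Real.pi / 2) ^ 3) ^ K)⁻¹) := by
        rw [h1, h, h3, h2, h8, h6]
        unfold CK
        rw [h4, ← h7]
    _ = Real.sqrt 2 * (df K * E) := by
        generalize Real.sqrt Real.pi = p at hsp
        generalize Real.sqrt 3 = t at hs3
        generalize Real.sqrt 2 = s at hs2 hq2
        generalize (K.factorial : ℝ) = f at hK
        generalize df K = d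
        rw [← hq2]
        have e1 : (((p ^ 2) ^ 2)⁻¹ * (t * p / s ^ 2) ^ 3) ^ K = (t ^ 3) ^ K / ((p ^ K) * (s ^ 6) ^ K) := by
          rw [← mul_pow, ← div_pow]
          congr 1
          field_simp
        rw [e1, mul_pow, ← pow_mul, ← pow_mul, ← pow_mul, ← pow_mul]
        have hs : s ≠ 0 := hs2.ne'
        have ht : t ≠ 0 := hs3.ne'
        have hp : p ≠ 0 := hsp.ne'
        have hf : f ≠ 0 := hK.ne'
        field_simp
        ring

end Tot91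

/-- TOT. -/
theorem st_TOT (fpi : ST_FPI) (lapf : ST_LAPF) (gint : ST_GINT) (prd : ST_PRD)
    (scal : ST_SCAL) : ST_TOT := by
  intro K
  have hL := (lapf K).const_mul (Tot91.cc K)
  have hlim : Tot91.cc K * ((CK K)⁻¹ * ∫ t, Real.exp (-(Q5 K t + tq K t) / 2)) =
      Real.sqrt 2 * mom K := by
    have h1 := gint K
    have h2 := prd K
    rw [h1]
    exact Tot91.lim_id K _ _ h2
  rw [hlim] at hL
  have hC := (Complex.continuous_ofReal.tendsto (Real.sqrt 2 * mom K)).comp hL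
  refine hC.congr' ?_
  filter_upwards [eventually_gt_atTop 0] with N hN
  rw [Function.comp_apply, scal K N hN, fpi K N hN, ← Complex.ofReal_div,
    Tot91.real_id K N hN]

end Pool.Agent.Helper46.T5
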