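import Pool.Agent.Helper15.T5.Stmts

set_option autoImplicit false

/-!
MP_2f9829_co: module WRAP (the list edge-colouring conjecture for one cubic graph).
-/

open Finset MeasureTheory Filter Topology

namespace Pool.Agent.Helper15.T5

open Pool.Agent.Helper15.T4 Pool.Agent.Helper46.T5

namespace Wrap91

/-- Two edges at a common vertex are adjacent in the line graph. -/
theorem adj_line {V : Type} {G : SimpleGraph V} {v a b : V} (ha : G.Adj v a) (hb : G.Adj v b)
    (hab : a ≠ b) : G.lineGraph.Adj ⟨s(v, a), ha⟩ ⟨s(v, b), hb⟩ := by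
  refine ⟨?_, ⟨v, ?_, ?_⟩⟩
  · intro h
    have h1 : s(v, a) = s(v, b) := Subtype.mk.inj h
    exact hab (Sym2.congr_right.1 h1)
  · simp
  · simp

/-- A proper colouring of the edges of a cubic graph needs three colours. -/
theorem three_le {V : Type} [Fintype V] [Nonempty V] {g : ℕ} {G : SimpleGraph V} (hG : Cubic g G)
    {k : ℕ} (f : G.edgeSet → ℕ) (hk : ∀ e, f e < k)
    (hf : ∀ e e', G.lineGraph.Adj e e' → f e ≠ f e') : 3 ≤ k := by
  obtain ⟨v⟩ := ‹Nonempty V›
  obtain ⟨a, b, c, hab, hac, hbc, hs⟩ := Set.ncard_eq_three.1 (hG.1 v)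
  have ha : G.Adj v a := by
    have : a ∈ {w | G.Adj v w} := by rw [hs]; simp
    exact this
  have hb : G.Adj v b := by
    have : b ∈ {w | G.Adj v w} := by rw [hs]; simp
    exact this
  have hc : G.Adj v c := by
    have : c ∈ {w | G.Adj v w} := by rw [hs]; simp
    exact this
  have h1 := hf _ _ (adj_line ha hb hab)
  have h2 := hf _ _ (adj_line ha hc hac)
  have h3 := hf _ _ (adj_line hb hc hbc)
  have k1 := hk ⟨s(v, a), ha⟩
  have k2 := hk ⟨s(v, b), hb⟩
  have k3 := hk ⟨s(v, c), hc⟩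
  omega

end Wrap91

/-- WRAP. -/
theorem st_WRAP : ST_WRAP := by
  intro V _ _ g G hG hC k
  have key : 3 ≤ k → ∀ L : G.edgeSet → Finset ℕ, (∀ e, k ≤ (L e).card) →
      ∃ f : G.edgeSet → ℕ, (∀ e, f e ∈ L e) ∧ ∀ e e', G.lineGraph.Adj e e' → f e ≠ f e' :=
    fun h L hL => hC L fun e => h.trans (hL e)
  refine ⟨⟨?_, ?_⟩, ⟨?_, key⟩⟩
  · rintro ⟨C⟩
    exact Wrap91.three_le hG (fun e => (C e : ℕ)) (fun e => (C e).isLt)
      fun e e' h h' => C.valid h (Fin.ext h')
  · intro h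
    obtain ⟨f, hf, hf'⟩ := key h (fun _ => range k) (fun _ => by simp)
    refine ⟨SimpleGraph.Coloring.mk (fun e => (⟨f e, mem_range.1 (hf e)⟩ : Fin k)) ?_⟩
    intro e e' h1 h2
    exact hf' e e' h1 (Fin.mk.inj h2)
  · intro h
    obtain ⟨f, hf, hf'⟩ := h (fun _ => range k) (fun _ => by simp)
    exact Wrap91.three_le hG f (fun e => mem_range.1 (hf e)) hf'

end Pool.Agent.Helper15.T5
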